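import Pool.Agent.Q120.FZ.Stm

/-!
Job FZ-CONT: continuation of the sum over the primes.
-/

set_option autoImplicit false

namespace Pool.Agent.Q153.FZ

open Finset MeasureTheory Filter Pool.Agent.Q120.ET Pool.Agent.Q120.FZ
open scoped Topology

/-- Abel summation -/
lemma abel (w : ℕ → ℝ) (f : ℕ → ℂ) (m N : ℕ) :
    ∑ n ∈ Ico m N, (w n : ℂ) * f n = if N < m then 0 else
      ∑ n ∈ Ico m N, ((w n - w (n + 1) : ℝ) : ℂ) * (∑ j ∈ Ico m (n + 1), f j) +
      (w N : ℂ) * ∑ j ∈ Ico m N, f j := by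
  split_ifs with h
  · rw [Ico_eq_empty (by omega)]
    simp
  · push Not at h
    induction N, h using Nat.le_induction with
    | base => simp
    | succ N hN ih =>
      rw [Finset.sum_Ico_succ_top hN, Finset.sum_Ico_succ_top hN, ih]
      rw [Finset.sum_Ico_succ_top hN]
      push_cast
      ring

lemma abel_bound (w : ℕ → ℝ) (f : ℕ → ℂ) (m N : ℕ) (hN : m ≤ N) (M : ℝ)
    (hw : ∀ n, m ≤ n → w (n + 1) ≤ w n) (hw0 : ∀ n, m ≤ n → 0 ≤ w n)
    (hM : ∀ n ≤ N, ‖∑ j ∈ Ico m n, f j‖ ≤ M) :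
    ‖∑ n ∈ Ico m N, (w n : ℂ) * f n‖ ≤ w m * M := by
  rw [abel, if_neg (by omega)]
  have h1 : ‖∑ n ∈ Ico m N, ((w n - w (n + 1) : ℝ) : ℂ) * (∑ j ∈ Ico m (n + 1), f j)‖ ≤
      ∑ n ∈ Ico m N, (w n - w (n + 1)) * M := by
    refine (norm_sum_le _ _).trans (Finset.sum_le_sum fun n hn => ?_)
    have hn' := (Finset.mem_Ico.mp hn).1
    rw [norm_mul, Complex.norm_real, Real.norm_eq_abs, abs_of_nonneg (by linarith [hw n hn'])]
    exact mul_le_mul_of_nonneg_left (hM _ (Finset.mem_Ico.mp hn).2) (by linarith [hw n hn'])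
  have h2 : ‖(w N : ℂ) * ∑ j ∈ Ico m N, f j‖ ≤ w N * M := by
    rw [norm_mul, Complex.norm_real, Real.norm_eq_abs, abs_of_nonneg (hw0 N hN)]
    exact mul_le_mul_of_nonneg_left (hM _ le_rfl) (hw0 N hN)
  have h3 : ∑ n ∈ Ico m N, (w n - w (n + 1)) * M = (w m - w N) * M := by
    rw [← Finset.sum_mul]
    congr 1
    clear h1 h2 hM
    induction N, hN using Nat.le_induction with
    | base => simp
    | succ N hN ih =>
      rw [Finset.sum_Ico_succ_top hN, ih]
      ring
  refine (norm_add_le _ _).trans ?_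
  calc _ ≤ (w m - w N) * M + w N * M := by rw [← h3]; exact add_le_add h1 h2
    _ = w m * M := by ring

/-- one block of the sum over the primes -/
noncomputable def Bk (S : Set ℕ) (k : ℕ) (s : ℂ) : ℂ := ∑ p ∈ pb k, (sg S p : ℂ) * (p : ℂ) ^ (-s)

lemma sg_abs (S : Set ℕ) (p : ℕ) : |sg S p| = 1 := by
  unfold sg
  split_ifs <;> simp

lemma pb_pos (k p : ℕ) (h : p ∈ pb k) : 0 < p ∧ 2 ^ k ≤ p ∧ p < 2 ^ (k + 1) ∧ p.Prime := by
  unfold pb block at h
  rw [Finset.mem_filter, Finset.mem_Ico] at h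
  exact ⟨h.2.pos, h.1.1, h.1.2, h.2⟩

lemma bk_triv (S : Set ℕ) (k : ℕ) (s : ℂ) (σ : ℝ) (h0 : 0 ≤ σ) (hs : σ ≤ s.re) :
    ‖Bk S k s‖ ≤ (2 : ℝ) ^ ((1 - σ) * k) := by
  unfold Bk
  have h1 : ∀ p ∈ pb k, ‖(sg S p : ℂ) * (p : ℂ) ^ (-s)‖ ≤ (2 : ℝ) ^ (-σ * k) := by
    intro p hp
    obtain ⟨hp0, hp1, _, _⟩ := pb_pos k p hp
    rw [norm_mul, Complex.norm_real, Real.norm_eq_abs, sg_abs, one_mul,
      Complex.norm_natCast_cpow_of_pos hp0, Complex.neg_re]
    have h2 : ((2 : ℝ) ^ k) ≤ p := by exact_mod_cast hp1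
    calc (p : ℝ) ^ (-s.re) ≤ ((2 : ℝ) ^ k) ^ (-s.re) :=
          Real.rpow_le_rpow_of_nonpos (by positivity) h2 (by linarith)
      _ ≤ ((2 : ℝ) ^ k) ^ (-σ) :=
          Real.rpow_le_rpow_of_exponent_le (one_le_pow₀ (by norm_num)) (by linarith)
      _ = (2 : ℝ) ^ (-σ * k) := by
          rw [← Real.rpow_natCast, ← Real.rpow_mul (by norm_num)]
          congr 1
          ring
  refine (norm_sum_le _ _).trans ((Finset.sum_le_sum h1).trans ?_)
  rw [Finset.sum_const, nsmul_eq_mul]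
  have h3 : ((pb k).card : ℝ) ≤ (2 : ℝ) ^ k := by
    have : (pb k).card ≤ 2 ^ k := by
      unfold pb block
      refine (Finset.card_filter_le _ _).trans ?_
      rw [Nat.card_Ico, pow_succ]
      omega
    exact_mod_cast this
  calc ((pb k).card : ℝ) * (2 : ℝ) ^ (-σ * k) ≤ (2 : ℝ) ^ k * (2 : ℝ) ^ (-σ * k) :=
        mul_le_mul_of_nonneg_right h3 (by positivity)
    _ = (2 : ℝ) ^ ((1 - σ) * k) := by
        rw [← Real.rpow_natCast, ← Real.rpow_add (by norm_num)]
        congr 1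
        ring

lemma bk_abel (S : Set ℕ) (k : ℕ) (s : ℂ) (σ M : ℝ) (h0 : 0 ≤ σ) (hs : σ ≤ s.re)
    (hM : ∀ x : ℕ, ‖W S k x s.im‖ ≤ M) :
    ‖Bk S k s‖ ≤ (2 : ℝ) ^ (-σ * k) * M := by
  set f : ℕ → ℂ := fun n => if n.Prime then (sg S n : ℂ) * (n : ℂ) ^ (-((s.im : ℂ) * Complex.I)) else 0
    with hf
  have h1 : Bk S k s = ∑ n ∈ Ico ((2 : ℕ) ^ k) (2 ^ (k + 1)), (((n : ℝ) ^ (-s.re) : ℝ) : ℂ) * f n := by
    unfold Bk pb block
    rw [Finset.sum_filter]
    apply Finset.sum_congr rfl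
    intro n hn
    simp only [hf]
    split_ifs with hp
    · have hn0 : (n : ℂ) ≠ 0 := by
        exact_mod_cast hp.pos.ne'
      rw [Complex.ofReal_cpow (Nat.cast_nonneg n)]
      have h2 : (-s) = ((-s.re : ℝ) : ℂ) + (-((s.im : ℂ) * Complex.I)) := by
        conv_lhs => rw [← Complex.re_add_im s]
        push_cast
        ring
      conv_lhs => rw [h2, Complex.cpow_add _ _ hn0]
      push_cast
      ring
    · simp
  have hMnn : 0 ≤ M := (norm_nonneg _).trans (hM 0)
  have h2 := abel_bound (fun n : ℕ => (n : ℝ) ^ (-s.re)) f (2 ^ k) (2 ^ (k + 1))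
    (Nat.pow_le_pow_right (by norm_num) (by omega)) M
    (by
      intro n hn
      have hn0 : 0 < n := lt_of_lt_of_le (by positivity) hn
      exact Real.rpow_le_rpow_of_nonpos (by exact_mod_cast hn0)
        (by exact_mod_cast Nat.le_succ n) (by linarith))
    (by
      intro n _
      positivity)
    (by
      intro n h4
      rcases Nat.eq_zero_or_pos n with h | h
      · subst h
        simpa using hMnn
      · have h3 : ∑ j ∈ Ico (2 ^ k) n, f j = W S k (n - 1) s.im := by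
          unfold W pb block
          rw [Finset.filter_filter, Finset.sum_filter, hf]
          rw [← Finset.sum_subset (s₁ := Ico (2 ^ k) n) (s₂ := Ico (2 ^ k) (2 ^ (k + 1)))]
          · apply Finset.sum_congr rfl
            intro j hj
            have hj' := Finset.mem_Ico.mp hj
            have : j ≤ n - 1 := by omega
            simp [this]
          · intro j hj
            rw [Finset.mem_Ico] at hj ⊢
            omega
          · intro j hj hj2
            rw [Finset.mem_Ico] at hj hj2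
            have : ¬ j ≤ n - 1 := by omega
            simp [this]
        rw [h3]
        exact hM _)
  rw [h1]
  refine h2.trans ?_
  apply mul_le_mul_of_nonneg_right _ hMnn
  push_cast
  rw [← Real.rpow_natCast, ← Real.rpow_mul (by norm_num)]
  apply Real.rpow_le_rpow_of_exponent_le (by norm_num)
  have hk : (0 : ℝ) ≤ k := Nat.cast_nonneg k
  nlinarith

lemma bk_bound (S : Set ℕ) (θ' C : ℝ) (hC : ∀ (k x : ℕ) (t : ℝ),
    ‖W S k x t‖ ≤ C * ((2 : ℝ) ^ (θ' * k) + (2 : ℝ) ^ ((k : ℝ) / 2) * √(Real.log (|t| + 3))))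
    (k : ℕ) (s : ℂ) (σ : ℝ) (h0 : 0 ≤ σ) (hs : σ ≤ s.re) :
    ‖Bk S k s‖ ≤ C * (((2 : ℝ) ^ (θ' - σ)) ^ k + ((2 : ℝ) ^ (1 / 2 - σ)) ^ k *
      √(Real.log (|s.im| + 3))) := by
  refine (bk_abel S k s σ _ h0 hs fun x => hC k x s.im).trans (le_of_eq ?_)
  rw [← Real.rpow_natCast ((2 : ℝ) ^ (θ' - σ)), ← Real.rpow_mul (by norm_num),
    ← Real.rpow_natCast ((2 : ℝ) ^ (1 / 2 - σ)), ← Real.rpow_mul (by norm_num)]
  have e1 : (2 : ℝ) ^ ((θ' - σ) * k) = (2 : ℝ) ^ (-σ * k) * (2 : ℝ) ^ (θ' * k) := by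
    rw [← Real.rpow_add (by norm_num)]
    congr 1
    ring
  have e2 : (2 : ℝ) ^ ((1 / 2 - σ) * k) = (2 : ℝ) ^ (-σ * k) * (2 : ℝ) ^ ((k : ℝ) / 2) := by
    rw [← Real.rpow_add (by norm_num)]
    congr 1
    ring
  rw [e1, e2]
  ring

lemma two_rpow_lt_one (r : ℝ) (h : r < 0) : (2 : ℝ) ^ r < 1 :=
  Real.rpow_lt_one_of_one_lt_of_neg (by norm_num) h

lemma log3 (t : ℝ) : 1 ≤ Real.log (|t| + 3) := by
  have h1 : Real.exp 1 ≤ |t| + 3 := by
    have := Real.exp_one_lt_d9
    have := abs_nonneg t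
    linarith
  rw [Real.le_log_iff_exp_le (by positivity)]
  exact h1

lemma bk_diff (S : Set ℕ) (k : ℕ) : Differentiable ℂ (Bk S k) := by
  unfold Bk
  apply Differentiable.fun_sum
  intro p hp
  have hp0 : (p : ℂ) ≠ 0 := by
    exact_mod_cast (pb_pos k p hp).1.ne'
  exact (differentiable_const _).mul (differentiable_neg.const_cpow (Or.inl hp0))

lemma partial_sum (S : Set ℕ) (s : ℂ) (K : ℕ) :
    ∑ n ∈ range (2 ^ K), (if n.Prime then (sg S n : ℂ) * (n : ℂ) ^ (-s) else 0) =
      ∑ k ∈ range K, Bk S k s := by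
  induction K with
  | zero => simp [Nat.not_prime_zero]
  | succ K ih =>
    rw [Finset.sum_range_succ, ← ih, ← Finset.sum_range_add_sum_Ico _
      (Nat.pow_le_pow_right (by norm_num) (Nat.le_succ K) : 2 ^ K ≤ 2 ^ (K + 1))]
    congr 1
    unfold Bk pb block
    rw [Finset.sum_filter]

theorem t_CONT : J_CONT := by
  intro S θ hθ hθ1 hT
  -- summability
  have key : ∀ (s : ℂ) (σ : ℝ), θ < σ → σ ≤ s.re → Summable (fun k => Bk S k s) := by
    intro s σ hσ hs
    obtain ⟨C, hC⟩ := hT ((θ + σ) / 2) (by linarith)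
    have h1 : Summable fun k : ℕ => C * (((2 : ℝ) ^ ((θ + σ) / 2 - σ)) ^ k +
        ((2 : ℝ) ^ (1 / 2 - σ)) ^ k * √(Real.log (|s.im| + 3))) := by
      apply Summable.mul_left
      apply Summable.add
      · exact summable_geometric_of_lt_one (by positivity) (two_rpow_lt_one _ (by linarith))
      · exact (summable_geometric_of_lt_one (by positivity)
          (two_rpow_lt_one _ (by linarith))).mul_right _
    exact Summable.of_norm_bounded h1 fun k => bk_bound S _ C hC k s σ (by linarith) hs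
  refine ⟨fun s => ∑' k, Bk S k s, ?_, ?_, ?_⟩
  · intro s0 hs0
    have hs0' : θ < s0.re := hs0
    set σ : ℝ := (θ + s0.re) / 2 with hσ
    obtain ⟨C, hC⟩ := hT ((θ + σ) / 2) (by linarith)
    set R : ℝ := |s0.im| + 1 with hR
    set U : Set ℂ := {s | σ < s.re} ∩ {s | |s.im| < R} with hU
    have hUo : IsOpen U := (isOpen_lt continuous_const Complex.continuous_re).inter
      (isOpen_lt (continuous_abs.comp Complex.continuous_im) continuous_const)
    have hC0 : 0 ≤ C := by
      have h1 := (norm_nonneg _).trans (hC 0 0 0)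
      by_contra h2
      push Not at h2
      have h3 : 0 < ((2 : ℝ) ^ ((θ + σ) / 2 * (0 : ℕ)) +
        (2 : ℝ) ^ (((0 : ℕ) : ℝ) / 2) * √(Real.log (|0| + 3))) := by positivity
      nlinarith
    have h1 : Summable fun k : ℕ => C * (((2 : ℝ) ^ ((θ + σ) / 2 - σ)) ^ k +
        ((2 : ℝ) ^ (1 / 2 - σ)) ^ k * √(Real.log (R + 3))) := by
      apply Summable.mul_left
      apply Summable.add
      · exact summable_geometric_of_lt_one (by positivity) (two_rpow_lt_one _ (by linarith))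
      · exact (summable_geometric_of_lt_one (by positivity)
          (two_rpow_lt_one _ (by linarith))).mul_right _
    have h2 : DifferentiableOn ℂ (fun s => ∑' k, Bk S k s) U := by
      apply Complex.differentiableOn_tsum_of_summable_norm h1 (fun k => (bk_diff S k).differentiableOn) hUo
      intro k s hs
      obtain ⟨hs1, hs2⟩ := hs
      have hs1' : σ < s.re := hs1
      have hs2' : |s.im| < R := hs2
      refine (bk_bound S _ C hC k s σ (by linarith) hs1'.le).trans ?_
      apply mul_le_mul_of_nonneg_left _ hC0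
      gcongr
    have h3 : s0 ∈ U := by
      refine ⟨?_, ?_⟩
      · show σ < s0.re
        linarith
      · show |s0.im| < R
        linarith
    exact (h2.differentiableAt (hUo.mem_nhds h3)).differentiableWithinAt
  · intro s hs
    have hsum := key s 1 hθ1 hs.le
    set g : ℕ → ℂ := fun n => if n.Prime then (sg S n : ℂ) * (n : ℂ) ^ (-s) else 0 with hg
    have hgs : Summable g := by
      have h1 : Summable fun n : ℕ => (n : ℝ) ^ (-s.re) := by
        rw [Real.summable_nat_rpow]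
        linarith
      refine Summable.of_norm_bounded h1 fun n => ?_
      simp only [hg]
      split_ifs with hp
      · rw [norm_mul, Complex.norm_real, Real.norm_eq_abs, sg_abs, one_mul,
          Complex.norm_natCast_cpow_of_pos hp.pos, Complex.neg_re]
      · rw [norm_zero]
        positivity
    have h2 : ∑' p : Nat.Primes, (sg S p : ℂ) * ((p : ℕ) : ℂ) ^ (-s) = ∑' n, g n := by
      have h3 := tsum_subtype {p : ℕ | p.Prime} (fun n : ℕ => (sg S n : ℂ) * (n : ℂ) ^ (-s))
      have h4 : ({p : ℕ | p.Prime} : Set ℕ).indicator (fun n : ℕ => (sg S n : ℂ) * (n : ℂ) ^ (-s)) =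
          g := by
        funext n
        simp only [hg, Set.indicator_apply]
        rfl
      rw [h4] at h3
      exact h3
    rw [h2]
    have h5 : Tendsto (fun K : ℕ => ∑ k ∈ range K, Bk S k s) atTop (𝓝 (∑' n, g n)) := by
      have h6 := hgs.hasSum.tendsto_sum_nat
      have h7 : Tendsto (fun K : ℕ => 2 ^ K) atTop (atTop : Filter ℕ) :=
        tendsto_pow_atTop_atTop_of_one_lt (by norm_num)
      refine (h6.comp h7).congr fun K => ?_
      exact partial_sum S s K
    exact tendsto_nhds_unique hsum.hasSum.tendsto_sum_nat h5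
  · intro σ hσ hσ1
    obtain ⟨C, hC⟩ := hT ((θ + σ) / 2) (by linarith)
    have hC0 : 0 ≤ C := by
      have h1 := (norm_nonneg _).trans (hC 0 0 0)
      by_contra h2
      push Not at h2
      have h3 : 0 < ((2 : ℝ) ^ ((θ + σ) / 2 * (0 : ℕ)) +
        (2 : ℝ) ^ (((0 : ℕ) : ℝ) / 2) * √(Real.log (|0| + 3))) := by positivity
      nlinarith
    set r0 : ℝ := (2 : ℝ) ^ (1 - σ) with hr0
    set r1 : ℝ := (2 : ℝ) ^ ((θ + σ) / 2 - σ) with hr1
    set r2 : ℝ := (2 : ℝ) ^ (1 / 2 - σ) with hr2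
    have hr0' : 1 < r0 := Real.one_lt_rpow (by norm_num) (by linarith)
    have hr1' : r1 < 1 := two_rpow_lt_one _ (by linarith)
    have hr2' : r2 < 1 := two_rpow_lt_one _ (by linarith)
    have hr1p : 0 < r1 := by positivity
    have hr2p : 0 < r2 := by positivity
    refine ⟨r0 / (r0 - 1) + C * (1 / (1 - r1)) + C * (1 / (1 - r2)), ?_⟩
    intro s hs
    set l : ℝ := Real.log (|s.im| + 3) with hl
    have hl1 : 1 ≤ l := log3 s.im
    obtain ⟨K, hK1, hK2⟩ := exists_nat_pow_near hl1 (by norm_num : (1 : ℝ) < 2)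
    have hb : ∀ k : ℕ, ‖Bk S k s‖ ≤ (if k < K + 1 then r0 ^ k else 0) + C * r1 ^ k +
        C * √l * (if K + 1 ≤ k then r2 ^ k else 0) := by
      intro k
      by_cases hk : k < K + 1
      · rw [if_pos hk, if_neg (by omega)]
        have h1 := bk_triv S k s σ (by linarith) hs
        have h2 : (2 : ℝ) ^ ((1 - σ) * k) = r0 ^ k := by
          rw [hr0, ← Real.rpow_natCast ((2 : ℝ) ^ (1 - σ)), ← Real.rpow_mul (by norm_num)]
        rw [h2] at h1
        have h3 : 0 ≤ C * r1 ^ k := by positivity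
        linarith
      · rw [if_neg hk, if_pos (by omega)]
        have h1 := bk_bound S _ C hC k s σ (by linarith) hs
        refine h1.trans (le_of_eq ?_)
        rw [← hr1, ← hr2, ← hl]
        ring
    have hs0 : HasSum (fun k : ℕ => if k < K + 1 then r0 ^ k else 0)
        (∑ k ∈ range (K + 1), r0 ^ k) := by
      have h1 : HasSum (fun k : ℕ => if k < K + 1 then r0 ^ k else 0)
          (∑ b ∈ range (K + 1), (if b < K + 1 then r0 ^ b else 0)) := by
        apply hasSum_sum_of_ne_finset_zero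
        intro b hb
        rw [Finset.mem_range] at hb
        simp [hb]
      have h2 : ∑ b ∈ range (K + 1), (if b < K + 1 then r0 ^ b else 0) =
          ∑ k ∈ range (K + 1), r0 ^ k :=
        Finset.sum_congr rfl fun b hb => if_pos (Finset.mem_range.mp hb)
      rw [← h2]
      exact h1
    have hs1 : HasSum (fun k : ℕ => r1 ^ k) (1 - r1)⁻¹ :=
      hasSum_geometric_of_lt_one hr1p.le hr1'
    have hs2 : HasSum (fun k : ℕ => if K + 1 ≤ k then r2 ^ k else 0)
        (r2 ^ (K + 1) * (1 - r2)⁻¹) := by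
      rw [← hasSum_nat_add_iff' (K + 1)]
      have h1 : ∑ i ∈ range (K + 1), (if K + 1 ≤ i then r2 ^ i else 0) = 0 :=
        Finset.sum_eq_zero fun i hi => if_neg (by have := Finset.mem_range.mp hi; omega)
      rw [h1, sub_zero]
      refine ((hasSum_geometric_of_lt_one hr2p.le hr2').mul_left (r2 ^ (K + 1))).congr_fun ?_
      intro n
      rw [if_pos (by omega), pow_add, mul_comm]
    have htot := (hs0.add (hs1.mul_left C)).add (hs2.mul_left (C * √l))
    refine (tsum_of_norm_bounded htot hb).trans ?_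
    have hlp : 0 < l := by linarith
    have hl1s : 1 ≤ l ^ (1 - σ) := Real.one_le_rpow hl1 (by linarith)
    -- first part
    have e1 : ∑ k ∈ range (K + 1), r0 ^ k ≤ r0 / (r0 - 1) * l ^ (1 - σ) := by
      rw [geom_sum_eq hr0'.ne', div_mul_eq_mul_div]
      apply div_le_div_of_nonneg_right _ (by linarith)
      have h1 : r0 ^ K ≤ l ^ (1 - σ) := by
        have h2 : r0 ^ K = ((2 : ℝ) ^ K) ^ (1 - σ) := by
          rw [hr0, ← Real.rpow_natCast ((2 : ℝ) ^ (1 - σ)), ← Real.rpow_mul (by norm_num),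
            ← Real.rpow_natCast (2 : ℝ) K, ← Real.rpow_mul (by norm_num)]
          congr 1
          ring
        rw [h2]
        exact Real.rpow_le_rpow (by positivity) hK1 (by linarith)
      have h3 : r0 ^ (K + 1) = r0 * r0 ^ K := by ring
      nlinarith
    have e2 : C * (1 - r1)⁻¹ ≤ C * (1 / (1 - r1)) * l ^ (1 - σ) := by
      rw [one_div]
      have : 0 ≤ C * (1 - r1)⁻¹ := by
        apply mul_nonneg hC0
        rw [inv_nonneg]
        linarith
      nlinarith
    have e3 : C * √l * (r2 ^ (K + 1) * (1 - r2)⁻¹) ≤ C * (1 / (1 - r2)) * l ^ (1 - σ) := by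
      have h1 : √l * r2 ^ (K + 1) ≤ l ^ (1 - σ) := by
        have h2 : r2 ^ (K + 1) = ((2 : ℝ) ^ (K + 1)) ^ (1 / 2 - σ) := by
          rw [hr2, ← Real.rpow_natCast ((2 : ℝ) ^ (1 / 2 - σ)), ← Real.rpow_mul (by norm_num),
            ← Real.rpow_natCast (2 : ℝ) (K + 1), ← Real.rpow_mul (by norm_num)]
          congr 1
          ring
        have h3 : r2 ^ (K + 1) ≤ l ^ (1 / 2 - σ) := by
          rw [h2]
          exact Real.rpow_le_rpow_of_nonpos hlp hK2.le (by linarith)
        calc √l * r2 ^ (K + 1) ≤ √l * l ^ (1 / 2 - σ) :=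
              mul_le_mul_of_nonneg_left h3 (Real.sqrt_nonneg _)
          _ = l ^ (1 - σ) := by
              rw [Real.sqrt_eq_rpow, ← Real.rpow_add hlp]
              congr 1
              ring
      have h4 : 0 ≤ C * (1 - r2)⁻¹ := by
        apply mul_nonneg hC0
        rw [inv_nonneg]
        linarith
      calc C * √l * (r2 ^ (K + 1) * (1 - r2)⁻¹) = (C * (1 - r2)⁻¹) * (√l * r2 ^ (K + 1)) := by ring
        _ ≤ (C * (1 - r2)⁻¹) * l ^ (1 - σ) := mul_le_mul_of_nonneg_left h1 h4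
        _ = C * (1 / (1 - r2)) * l ^ (1 - σ) := by rw [one_div]
    calc _ ≤ r0 / (r0 - 1) * l ^ (1 - σ) + C * (1 / (1 - r1)) * l ^ (1 - σ) +
          C * (1 / (1 - r2)) * l ^ (1 - σ) := add_le_add (add_le_add e1 e2) e3
      _ = _ := by ring

end Pool.Agent.Q153.FZ
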